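import Pool.Agent.H2.KS2

set_option autoImplicit false

namespace Pool.Agent.Results.MP_eeb913_an.TwoSinks

open MeasureTheory Pool.Agent.H2.KS

theorem result : ∃ (p : Polynomial ℂ) (a : ℂ) (φ : ℂ × ℂ → ℝ) (ν₁ ν₂ : Measure (ℂ × ℂ)),
    2 ≤ p.natDegree ∧ a ≠ 0 ∧ Continuous φ ∧ Holder φ ∧ ν₁ ≠ ν₂ ∧
      IsEq (fun z : ℂ × ℂ => (p.eval z.1 - a * z.2, z.1)) φ ν₁ ∧
      IsEq (fun z : ℂ × ℂ => (p.eval z.1 - a * z.2, z.1)) φ ν₂ := by
  obtain ⟨φ, h1, h2, -, h3⟩ := eq_iff hf_diff (r := 1 / 10) (by norm_num) (fun z => rec_le)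
    (F := {(1, 1), (-1, -1)}) (by measurability) (c := (1, 1)) (by simp)
    (by rintro z (rfl | rfl) <;> (simp [hf, pp_eval]; norm_num)) (fun z hz h => by
      obtain ⟨w, rfl | rfl, h⟩ := (Metric.infDist_lt_iff (by simp)).1 h
      · exact .inl (rec_sink (.inl rfl) hz h)
      · exact .inr (rec_sink (.inr rfl) hz h))
  have m : MeasurableSet ({(1, 1), (-1, -1)} : Set (ℂ × ℂ))ᶜ := by measurability
  refine ⟨pp, 1 / 100, φ, Measure.dirac (1, 1), Measure.dirac (-1, -1), pp_deg, by norm_num, h1, h2,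
    fun e => ?_, (h3 _).2 ⟨inferInstance, by simp [m]⟩, (h3 _).2 ⟨inferInstance, by simp [m]⟩⟩
  have := congrArg Prod.fst (MeasureTheory.injective_dirac e)
  norm_num at this

end Pool.Agent.Results.MP_eeb913_an.TwoSinks
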